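import Pool.Agent.Run7.h611.Ehr.Geo

/-!
# The example: the involution and the invariant polytope
-/

open scoped Pointwise
open Polynomial

noncomputable section

namespace Run7.h611.Ehr

/-- The linear part of the involution. -/
def sigLin : (Fin 6 → ℝ) →ₗ[ℝ] (Fin 6 → ℝ) where
  toFun w := ![w 0 + 2 * w 3, -3 * w 0 - w 1 - w 2 - 2 * w 3 - w 4, w 4 - w 3, -w 3, w 2 - w 3, w 5]
  map_add' a b := by
    ext i
    fin_cases i <;> simp <;> ring
  map_smul' a b := by
    ext i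
    fin_cases i <;> simp <;> ring

/-- The involution. -/
def sigFun (w : Fin 6 → ℝ) : Fin 6 → ℝ :=
  ![w 0 + 2 * w 3, 1 - 3 * w 0 - w 1 - w 2 - 2 * w 3 - w 4, w 4 - w 3, -w 3, w 2 - w 3, w 5]

theorem sigLin_invol : Function.Involutive sigLin := by
  intro w
  ext i
  fin_cases i <;> simp [sigLin] <;> ring

theorem sigFun_invol : Function.Involutive sigFun := by
  intro w
  ext i
  fin_cases i <;> simp [sigFun] <;> ring

/-- The involution as an affine automorphism. -/
def sig : (Fin 6 → ℝ) ≃ᵃ[ℝ] (Fin 6 → ℝ) where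
  toEquiv := sigFun_invol.toPerm
  linear := LinearEquiv.ofInvolutive sigLin sigLin_invol
  map_vadd' p v := by
    ext i
    fin_cases i <;> simp [sigFun, sigLin] <;> ring

theorem sig_apply (w : Fin 6 → ℝ) : sig w = sigFun w := rfl

theorem sig_linear_apply (w : Fin 6 → ℝ) : sig.linear w = sigLin w := rfl

theorem sig_mul_sig : sig * sig = 1 := by
  apply AffineEquiv.ext
  intro w
  exact sigFun_invol w

/-- The action of the group `ℤˣ = {1, -1}`. -/
def actHom : ℤˣ →* ((Fin 6 → ℝ) ≃ᵃ[ℝ] (Fin 6 → ℝ)) where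
  toFun u := if u = 1 then 1 else sig
  map_one' := by simp
  map_mul' u v := by
    rcases Int.units_eq_one_or u with rfl | rfl <;> rcases Int.units_eq_one_or v with rfl | rfl
    · simp
    · simp
    · simp
    · have h : ¬ ((-1 : ℤˣ) = 1) := by decide
      simp only [mul_neg, mul_one, neg_neg, if_true, h, if_false]
      exact sig_mul_sig.symm

theorem actHom_one : actHom 1 = 1 := map_one _

theorem actHom_neg : actHom (-1) = sig := by
  have h : ¬ ((-1 : ℤˣ) = 1) := by decide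
  simp [actHom, h]

theorem sig_lattice (w : Fin 6 → ℝ) (hw : w ∈ lattice 6) : sig w ∈ lattice 6 := by
  obtain ⟨z, rfl⟩ := hw
  refine ⟨![z 0 + 2 * z 3, 1 - 3 * z 0 - z 1 - z 2 - 2 * z 3 - z 4, z 4 - z 3, -z 3, z 2 - z 3,
    z 5], ?_⟩
  ext i
  fin_cases i <;> simp [sig_apply, sigFun]

theorem sig_Pex (w : Fin 6 → ℝ) (hw : w ∈ Pex) : sig w ∈ Pex := by
  simp only [Pex, Set.mem_ofPred_eq, Ineq, sig_apply, sigFun] at hw ⊢
  simp
  obtain ⟨a1, a2, a3, a4, a5, a6, a7, a8⟩ := hw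
  refine ⟨?_, ?_, ?_, ?_, ?_, ?_, ?_, ?_⟩ <;> linarith

theorem image_eq_of_invol {S : Set (Fin 6 → ℝ)} (h : ∀ w ∈ S, sig w ∈ S) : sig '' S = S := by
  apply Set.Subset.antisymm
  · rintro _ ⟨w, hw, rfl⟩
    exact h w hw
  · intro w hw
    exact ⟨sig w, h w hw, sigFun_invol w⟩

theorem fullDim_Pex : affineSpan ℝ Pex = ⊤ := by
  have h0 : (0 : Fin 6 → ℝ) ∈ Pex := by
    have := vert_mem 0
    convert this using 1
    ext i
    fin_cases i <;> simp [vert, vertZ]
  rw [AffineSubspace.affineSpan_eq_top_iff_vectorSpan_eq_top_of_nonempty ℝ _ _ ⟨0, h0⟩]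
  have hv : ∀ k, vert k ∈ vectorSpan ℝ Pex := fun k => by
    have := vsub_mem_vectorSpan ℝ (vert_mem k) h0
    simpa using this
  rw [eq_top_iff]
  intro w _
  have hw : w = (w 0 / 2) • vert 4 + (w 0 / 2 + w 1) • vert 2 + (w 0 / 2 + w 2) • vert 5 +
      (w 0 / 2 + w 3) • vert 6 + (w 0 / 2 + w 4) • vert 7 + (w 5) • vert 1 := by
    ext i
    fin_cases i <;> simp [vert, vertZ] <;> ring
  rw [hw]
  refine add_mem (add_mem (add_mem (add_mem (add_mem ?_ ?_) ?_) ?_) ?_) ?_ <;>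
    exact Submodule.smul_mem _ _ (hv _)

/-- The invariant polytope of the example. -/
def Aex : InvariantPolytope ℤˣ 6 where
  P := Pex
  polytope := by
    refine ⟨Set.range vert, Set.finite_range _, ?_, Pex_eq⟩
    rintro _ ⟨k, rfl⟩
    exact ⟨vertZ k, rfl⟩
  fullDim := fullDim_Pex
  act := actHom
  act_lattice g := by
    rcases Int.units_eq_one_or g with rfl | rfl
    · rw [actHom_one]
      simp
    · rw [actHom_neg]
      exact image_eq_of_invol sig_lattice
  act_polytope g := by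
    rcases Int.units_eq_one_or g with rfl | rfl
    · rw [actHom_one]
      simp
    · rw [actHom_neg]
      exact image_eq_of_invol sig_Pex

/-! ### The determinants -/

/-- The columns are eigenvectors of the involution. -/
def matA : Matrix (Fin 6) (Fin 6) ℝ :=
  !![0, 2, 0, 0, 2, 0; 0, -2, -1, 1, -1, 0; 0, -1, 1, 0, -1, 1; 0, 0, 0, 0, -2, 0;
    0, -1, 1, 0, -1, -1; 1, 0, 0, 0, 0, 0]

/-- The inverse matrix. -/
def matB : Matrix (Fin 6) (Fin 6) ℝ :=
  !![0, 0, 0, 0, 0, 1; 1/2, 0, 0, 1/2, 0, 0; 1/2, 0, 1/2, 0, 1/2, 0; 3/2, 1, 1/2, 1/2, 1/2, 0;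
    0, 0, 0, -1/2, 0, 0; 0, 0, 1/2, 0, -1/2, 0]

/-- The eigenvalues. -/
def eigs : Fin 6 → ℝ := ![1, 1, 1, -1, -1, -1]

theorem matA_mul_matB : matA * matB = 1 := by
  ext i j
  fin_cases i <;> fin_cases j <;>
    simp [matA, matB, Matrix.mul_apply, Fin.sum_univ_succ] <;> norm_num

theorem sigLin_matrix : LinearMap.toMatrix' sigLin = matA * Matrix.diagonal eigs * matB := by
  ext i j
  rw [LinearMap.toMatrix'_apply, Matrix.mul_apply]
  simp only [Matrix.mul_diagonal]
  fin_cases i <;> fin_cases j <;>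
    simp [matA, matB, eigs, sigLin, Fin.sum_univ_succ] <;> norm_num

theorem det_conj (A B D : Matrix (Fin 6) (Fin 6) ℝ) (h : A * B = 1) :
    Matrix.det (1 - (X : ℝ[X]) • (A * D * B).map C) =
      Matrix.det (1 - (X : ℝ[X]) • D.map C) := by
  have e1 : A.map C * B.map C = (1 : Matrix (Fin 6) (Fin 6) ℝ[X]) := by
    have := congrArg (fun M : Matrix (Fin 6) (Fin 6) ℝ => M.map (C : ℝ →+* ℝ[X])) h
    simpa [Matrix.map_mul] using this
  have e2 : 1 - (X : ℝ[X]) • (A * D * B).map C =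
      A.map C * (1 - (X : ℝ[X]) • D.map C) * B.map C := by
    rw [Matrix.map_mul, Matrix.map_mul, mul_sub, sub_mul, mul_one, e1]
    simp
  rw [e2, Matrix.det_mul, Matrix.det_mul, mul_comm (Matrix.det (A.map C)), mul_assoc,
    ← Matrix.det_mul, e1, Matrix.det_one, mul_one]

theorem detOneSub_one : Aex.detOneSub 1 = (1 - X) ^ 6 := by
  have h : ((Aex.act 1).linear : (Fin 6 → ℝ) →ₗ[ℝ] (Fin 6 → ℝ)) = LinearMap.id := by
    have : Aex.act 1 = 1 := map_one _
    rw [this]
    rfl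
  rw [InvariantPolytope.detOneSub, h, LinearMap.toMatrix'_id]
  have e : (1 : Matrix (Fin 6) (Fin 6) ℝ[X]) - (X : ℝ[X]) • (1 : Matrix (Fin 6) (Fin 6) ℝ).map C =
      Matrix.diagonal fun _ => (1 - X : ℝ[X]) := by
    ext i j : 2
    by_cases hij : i = j
    · subst hij
      simp
    · simp [hij]
  rw [e, Matrix.det_diagonal]
  simp

theorem detOneSub_neg : Aex.detOneSub (-1) = (1 - X) ^ 3 * (1 + X) ^ 3 := by
  have h : ((Aex.act (-1)).linear : (Fin 6 → ℝ) →ₗ[ℝ] (Fin 6 → ℝ)) = sigLin := by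
    have : Aex.act (-1) = sig := actHom_neg
    rw [this]
    rfl
  rw [InvariantPolytope.detOneSub, h, sigLin_matrix, det_conj _ _ _ matA_mul_matB]
  have e : (1 : Matrix (Fin 6) (Fin 6) ℝ[X]) - (X : ℝ[X]) • (Matrix.diagonal eigs).map C =
      Matrix.diagonal fun i => (1 - X * C (eigs i) : ℝ[X]) := by
    ext i j : 2
    by_cases hij : i = j
    · subst hij
      simp
    · simp [hij]
  rw [e, Matrix.det_diagonal]
  simp [Fin.prod_univ_succ, eigs]
  ring

end Run7.h611.Ehr
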