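import Pool.Agent.Run7.h611.Ehr.Act

/-!
# The example: counting lattice points
-/

open scoped Pointwise

noncomputable section

namespace Run7.h611.Ehr

variable {β : Type}

/-- Pairs of a number `c` and an element of `Q k`, with `c + k = n`. -/
def T (Q : ℕ → Finset β) (n : ℕ) : Finset (Σ _ : ℕ × ℕ, β) :=
  (Finset.HasAntidiagonal.antidiagonal n).sigma fun p => Q p.2

/-- Pairs of an even number `c` and an element of `Q k`, with `c + k = n`. -/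
def E (Q : ℕ → Finset β) (n : ℕ) : Finset (Σ _ : ℕ × ℕ, β) :=
  ((Finset.HasAntidiagonal.antidiagonal n).filter fun p => Even p.1).sigma fun p => Q p.2

theorem mem_T {Q : ℕ → Finset β} {n a k : ℕ} {b : β} :
    (⟨(a, k), b⟩ : Σ _ : ℕ × ℕ, β) ∈ T Q n ↔ a + k = n ∧ b ∈ Q k := by
  simp [T]

theorem mem_E {Q : ℕ → Finset β} {n a k : ℕ} {b : β} :
    (⟨(a, k), b⟩ : Σ _ : ℕ × ℕ, β) ∈ E Q n ↔ (a + k = n ∧ Even a) ∧ b ∈ Q k := by
  simp [E]

/-- Generating function. -/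
def gf (f : ℕ → ℕ) : PowerSeries ℝ := PowerSeries.mk fun n => (f n : ℝ)

theorem gf_T (Q : ℕ → Finset β) :
    gf (fun n => (T Q n).card) = PowerSeries.mk 1 * gf (fun n => (Q n).card) := by
  ext n
  rw [gf, PowerSeries.coeff_mk, PowerSeries.coeff_mul, T, Finset.card_sigma]
  simp [gf]

/-- The indicator function of the even numbers. -/
def ev (n : ℕ) : ℕ := if Even n then 1 else 0

theorem gf_E (Q : ℕ → Finset β) :
    gf (fun n => (E Q n).card) = gf ev * gf (fun n => (Q n).card) := by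
  ext n
  rw [gf, PowerSeries.coeff_mk, PowerSeries.coeff_mul, E, Finset.card_sigma, Finset.sum_filter]
  simp [gf, ev]

/-! ### The lattice points of `mP` -/

/-- The inequalities of `mP` for integer vectors. -/
def IneqZ (m : ℕ) (z : Fin 6 → ℤ) : Prop :=
  0 ≤ z 0 ∧ 0 ≤ z 0 + 2 * z 2 ∧ 0 ≤ z 0 + 2 * z 3 ∧ 0 ≤ z 0 + 2 * z 4 ∧ 0 ≤ z 0 + 2 * z 1 ∧
  0 ≤ z 5 ∧ z 0 + 2 * z 1 + 2 * (2 * z 0 + z 2 + z 3 + z 4) ≤ 2 * m ∧
  z 5 + (2 * z 0 + z 2 + z 3 + z 4) ≤ m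

theorem ineq_iff (m : ℕ) (z : Fin 6 → ℤ) : Ineq m (fun i => (z i : ℝ)) ↔ IneqZ m z := by
  unfold Ineq IneqZ
  have h1 : (0 : ℝ) ≤ (z 0 : ℝ) / 2 ↔ 0 ≤ z 0 := by
    constructor
    · intro h
      have : (0 : ℝ) ≤ (z 0 : ℝ) := by linarith
      exact_mod_cast this
    · intro h
      have : (0 : ℝ) ≤ (z 0 : ℝ) := by exact_mod_cast h
      linarith
  have h2 : ∀ i, (0 : ℝ) ≤ (z 0 : ℝ) / 2 + z i ↔ 0 ≤ z 0 + 2 * z i := by
    intro i
    constructor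
    · intro h
      have : (0 : ℝ) ≤ (z 0 : ℝ) + 2 * z i := by linarith
      exact_mod_cast this
    · intro h
      have : (0 : ℝ) ≤ (z 0 : ℝ) + 2 * z i := by exact_mod_cast h
      linarith
  have h3 : (0 : ℝ) ≤ (z 5 : ℝ) ↔ 0 ≤ z 5 := by norm_cast
  have h4 : (z 0 : ℝ) / 2 + z 1 + (2 * z 0 + z 2 + z 3 + z 4) ≤ (m : ℝ) ↔
      z 0 + 2 * z 1 + 2 * (2 * z 0 + z 2 + z 3 + z 4) ≤ 2 * m := by
    constructor
    · intro h
      have : (z 0 : ℝ) + 2 * z 1 + 2 * (2 * z 0 + z 2 + z 3 + z 4) ≤ 2 * (m : ℝ) := by linarith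
      exact_mod_cast this
    · intro h
      have : (z 0 : ℝ) + 2 * z 1 + 2 * (2 * z 0 + z 2 + z 3 + z 4) ≤ 2 * (m : ℝ) := by
        exact_mod_cast h
      linarith
  have h5 : (z 5 : ℝ) + (2 * z 0 + z 2 + z 3 + z 4) ≤ (m : ℝ) ↔
      z 5 + (2 * z 0 + z 2 + z 3 + z 4) ≤ m := by norm_cast
  rw [h1, h2 2, h2 3, h2 4, h2 1, h3, h4, h5]

/-- The tuples of numbers (coordinates). -/
abbrev Tup : Type := Σ _ : ℕ × ℕ, Σ _ : ℕ × ℕ, Σ _ : ℕ × ℕ, Σ _ : ℕ × ℕ, ℕ × ℕ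

/-- The pairs `(x, y)` with `x, y ≤ k`. -/
def Q0 (k : ℕ) : Finset (ℕ × ℕ) := Finset.range (k + 1) ×ˢ Finset.range (k + 1)

/-- The pairs `(x, y)` with `x < k`, `y ≤ k`. -/
def Q1 (k : ℕ) : Finset (ℕ × ℕ) := Finset.range k ×ˢ Finset.range (k + 1)

theorem mem_Q0 {k x y : ℕ} : (x, y) ∈ Q0 k ↔ x < k + 1 ∧ y < k + 1 := by
  simp [Q0]

theorem mem_Q1 {k x y : ℕ} : (x, y) ∈ Q1 k ↔ x < k ∧ y < k + 1 := by
  simp [Q1]

/-- The parametrisation of the lattice points with even first coordinate (`e = 0`) or odd first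
coordinate (`e = 1`). -/
def phi (e : ℤ) (t : Tup) : Fin 6 → ℤ :=
  ![2 * (t.1.1 : ℤ) + e, (t.2.2.2.2.1 : ℤ) - t.1.1, (t.2.1.1 : ℤ) - t.1.1,
    (t.2.2.1.1 : ℤ) - t.1.1, (t.2.2.2.1.1 : ℤ) - t.1.1, (t.2.2.2.2.2 : ℤ)]

theorem phi_injOn (Q : ℕ → Finset (ℕ × ℕ)) (n : ℕ) (e : ℤ) :
    Set.InjOn (phi e) (T (T (T (T Q))) n : Set Tup) := by
  rintro ⟨⟨a1, k1⟩, ⟨a2, k2⟩, ⟨a3, k3⟩, ⟨a4, k4⟩, ⟨x, y⟩⟩ ha
    ⟨⟨b1, l1⟩, ⟨b2, l2⟩, ⟨b3, l3⟩, ⟨b4, l4⟩, ⟨x', y'⟩⟩ hb h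
  rw [Finset.mem_coe] at ha hb
  simp only [mem_T] at ha hb
  obtain ⟨p1, p2, p3, p4, -⟩ := ha
  obtain ⟨q1, q2, q3, q4, -⟩ := hb
  have h0 := congrFun h 0
  have h1 := congrFun h 1
  have h2 := congrFun h 2
  have h3 := congrFun h 3
  have h4 := congrFun h 4
  have h5 := congrFun h 5
  simp [phi] at h0 h1 h2 h3 h4 h5
  subst h0
  simp at h1 h2 h3 h4
  subst h1 h2 h3 h4 h5
  obtain rfl : k1 = l1 := by omega
  obtain rfl : k2 = l2 := by omega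
  obtain rfl : k3 = l3 := by omega
  obtain rfl : k4 = l4 := by omega
  rfl

/-- The number of the lattice points of `mP`. -/
def cnt (m : ℕ) : ℕ :=
  (T (T (T (T Q0))) m).card + if 2 ≤ m then (T (T (T (T Q1))) (m - 2)).card else 0

theorem sol_eq (m : ℕ) : {z : Fin 6 → ℤ | IneqZ m z} =
    phi 0 '' (T (T (T (T Q0))) m : Set Tup) ∪
      {z | ∃ _ : 2 ≤ m, z ∈ phi 1 '' (T (T (T (T Q1))) (m - 2) : Set Tup)} := by
  ext z
  simp only [Set.mem_union, Set.mem_ofPred_eq, Set.mem_image]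
  constructor
  · rintro ⟨h1, h2, h3, h4, h5, h6, h7, h8⟩
    rcases Int.even_or_odd' (z 0) with ⟨c, hc | hc⟩
    · left
      have hc0 : 0 ≤ c := by omega
      refine ⟨⟨(c.toNat, (m - c).toNat), ⟨((c + z 2).toNat, (m - c - (c + z 2)).toNat),
        ⟨((c + z 3).toNat, (m - c - (c + z 2) - (c + z 3)).toNat),
        ⟨((c + z 4).toNat, (m - c - (c + z 2) - (c + z 3) - (c + z 4)).toNat),
        ((c + z 1).toNat, (z 5).toNat)⟩⟩⟩⟩, ?_, ?_⟩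
      · rw [Finset.mem_coe]
        simp only [mem_T, mem_Q0]
        refine ⟨?_, ?_, ?_, ?_, ?_, ?_⟩ <;> omega
      · ext i
        fin_cases i <;> simp [phi] <;> omega
    · right
      have hc0 : 0 ≤ c := by omega
      have hm : 2 ≤ m := by omega
      refine ⟨hm, ⟨(c.toNat, (m - 2 - c).toNat), ⟨((c + z 2).toNat, (m - 2 - c - (c + z 2)).toNat),
        ⟨((c + z 3).toNat, (m - 2 - c - (c + z 2) - (c + z 3)).toNat),
        ⟨((c + z 4).toNat, (m - 2 - c - (c + z 2) - (c + z 3) - (c + z 4)).toNat),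
        ((c + z 1).toNat, (z 5).toNat)⟩⟩⟩⟩, ?_, ?_⟩
      · rw [Finset.mem_coe]
        simp only [mem_T, mem_Q1]
        refine ⟨?_, ?_, ?_, ?_, ?_, ?_⟩ <;> omega
      · ext i
        fin_cases i <;> simp [phi] <;> omega
  · rintro (⟨⟨⟨a1, k1⟩, ⟨a2, k2⟩, ⟨a3, k3⟩, ⟨a4, k4⟩, ⟨x, y⟩⟩, ha, rfl⟩ |
      ⟨hm, ⟨⟨a1, k1⟩, ⟨a2, k2⟩, ⟨a3, k3⟩, ⟨a4, k4⟩, ⟨x, y⟩⟩, ha, rfl⟩)
    · rw [Finset.mem_coe] at ha
      simp only [mem_T, mem_Q0] at ha
      obtain ⟨p1, p2, p3, p4, p5, p6⟩ := ha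
      unfold IneqZ
      simp [phi]
      refine ⟨?_, ?_, ?_, ?_, ?_, ?_⟩ <;> omega
    · rw [Finset.mem_coe] at ha
      simp only [mem_T, mem_Q1] at ha
      obtain ⟨p1, p2, p3, p4, p5, p6⟩ := ha
      unfold IneqZ
      simp [phi]
      refine ⟨?_, ?_, ?_, ?_, ?_, ?_, ?_⟩ <;> omega

theorem ncard_sol (m : ℕ) : {z : Fin 6 → ℤ | IneqZ m z}.ncard = cnt m := by
  rw [sol_eq]
  have hpar0 : ∀ t : Tup, Even (phi 0 t 0) := fun t => by simp [phi]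
  have hpar1 : ∀ t : Tup, Odd (phi 1 t 0) := fun t => by simp [phi]
  by_cases hm : 2 ≤ m
  · have e : {z : Fin 6 → ℤ | ∃ _ : 2 ≤ m, z ∈ phi 1 '' (T (T (T (T Q1))) (m - 2) : Set Tup)} =
        phi 1 '' (T (T (T (T Q1))) (m - 2) : Set Tup) := by
      ext z
      simp [hm]
    rw [e, Set.ncard_union_eq, Set.InjOn.ncard_image (phi_injOn _ _ _),
      Set.InjOn.ncard_image (phi_injOn _ _ _), Set.ncard_coe_finset, Set.ncard_coe_finset,
      cnt, if_pos hm]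
    · rw [Set.disjoint_left]
      rintro _ ⟨t, _, rfl⟩ ⟨t', _, h⟩
      have h1 := hpar1 t'
      rw [h] at h1
      exact (Int.not_odd_iff_even.mpr (hpar0 t)) h1
  · have e : {z : Fin 6 → ℤ | ∃ _ : 2 ≤ m, z ∈ phi 1 '' (T (T (T (T Q1))) (m - 2) : Set Tup)} =
        ∅ := by
      ext z
      simp [hm]
    rw [e, Set.union_empty, Set.InjOn.ncard_image (phi_injOn _ _ _), Set.ncard_coe_finset,
      cnt, if_neg hm, add_zero]

theorem cnt_zero : cnt 0 = 1 := by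
  rw [cnt, if_neg (by norm_num)]
  rfl

/-- The embedding of `ℤ⁶` in `ℝ⁶`. -/
def emb (z : Fin 6 → ℤ) (i : Fin 6) : ℝ := (z i : ℝ)

theorem emb_injective : Function.Injective emb := by
  intro a b h
  ext i
  have := congrFun h i
  simpa [emb] using this

theorem chi_one (m : ℕ) : Aex.chi m 1 = cnt m := by
  unfold InvariantPolytope.chi
  split_ifs with hm
  · subst hm
    exact cnt_zero.symm
  · have hm' : (0 : ℝ) < (m : ℝ) := by
      have : 0 < m := Nat.pos_of_ne_zero hm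
      exact_mod_cast this
    have e : Aex.fixedPts m 1 = emb '' {z : Fin 6 → ℤ | IneqZ m z} := by
      ext w
      have hact : Aex.act 1 = 1 := map_one _
      constructor
      · rintro ⟨⟨z, rfl⟩, h2, _⟩
        exact ⟨z, (ineq_iff m z).mp ((mem_smul_Pex hm' _).mp h2), rfl⟩
      · rintro ⟨z, hz, rfl⟩
        refine ⟨⟨z, rfl⟩, (mem_smul_Pex hm' _).mpr ((ineq_iff m z).mpr hz), ?_⟩
        rw [hact]
        change (m : ℝ) • ((m : ℝ)⁻¹ • emb z) = emb z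
        rw [smul_smul, mul_inv_cancel₀ hm'.ne', one_smul]
    rw [e, Set.ncard_image_of_injective _ emb_injective, ncard_sol]

/-! ### The fixed lattice points of `mP` -/

/-- The equations of the fixed points. -/
def Fix (m : ℕ) (z : Fin 6 → ℤ) : Prop :=
  z 3 = 0 ∧ z 2 = z 4 ∧ 3 * z 0 + 2 * z 1 + 2 * z 2 = m

/-- The pairs `(x, y)` with `x = k / 2` and `y ≤ 2 x + r` for even `k`. -/
def R (r k : ℕ) : Finset ℕ := if Even k then Finset.range (k + 1 + r) else ∅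

theorem mem_R {r k y : ℕ} : y ∈ R r k ↔ Even k ∧ y < k + 1 + r := by
  unfold R
  split_ifs with h <;> simp [h]

/-- The tuples of numbers (coordinates) for the fixed points. -/
abbrev Tup2 : Type := Σ _ : ℕ × ℕ, Σ _ : ℕ × ℕ, ℕ

/-- The parametrisation of the fixed lattice points. -/
def psi (e : ℤ) (t : Tup2) : Fin 6 → ℤ :=
  ![(t.1.1 : ℤ) + e, ((t.2.1.2 / 2 : ℕ) : ℤ) - (t.1.1 / 2 : ℕ),
    ((t.2.1.1 / 2 : ℕ) : ℤ) - (t.1.1 / 2 : ℕ), 0,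
    ((t.2.1.1 / 2 : ℕ) : ℤ) - (t.1.1 / 2 : ℕ), (t.2.2 : ℤ)]

theorem psi_injOn (r : ℕ) (n : ℕ) (e : ℤ) :
    Set.InjOn (psi e) (E (E (R r)) n : Set Tup2) := by
  rintro ⟨⟨a1, k1⟩, ⟨a2, k2⟩, y⟩ ha ⟨⟨b1, l1⟩, ⟨b2, l2⟩, y'⟩ hb h
  rw [Finset.mem_coe] at ha hb
  simp only [mem_E, mem_R] at ha hb
  obtain ⟨⟨p1, p2⟩, ⟨p3, p4⟩, p5, -⟩ := ha
  obtain ⟨⟨q1, q2⟩, ⟨q3, q4⟩, q5, -⟩ := hb
  have h0 := congrFun h 0
  have h2 := congrFun h 2
  have h5 := congrFun h 5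
  simp [psi] at h0 h2 h5
  subst h0 h5
  obtain ⟨a, rfl⟩ := p2
  obtain ⟨b, rfl⟩ := p4
  obtain ⟨c, rfl⟩ := q4
  obtain rfl : b = c := by omega
  obtain rfl : k1 = l1 := by omega
  obtain rfl : k2 = l2 := by omega
  rfl

/-- The number of the fixed lattice points of `mP`. -/
def cntF (m : ℕ) : ℕ :=
  (E (E (R 0)) m).card + if 3 ≤ m then (E (E (R 1)) (m - 3)).card else 0

theorem solF_eq (m : ℕ) : {z : Fin 6 → ℤ | IneqZ m z ∧ Fix m z} =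
    psi 0 '' (E (E (R 0)) m : Set Tup2) ∪
      {z | ∃ _ : 3 ≤ m, z ∈ psi 1 '' (E (E (R 1)) (m - 3) : Set Tup2)} := by
  ext z
  simp only [Set.mem_union, Set.mem_ofPred_eq, Set.mem_image]
  constructor
  · rintro ⟨⟨h1, h2, h3, h4, h5, h6, h7, h8⟩, f1, f2, f3⟩
    rcases Int.even_or_odd' (z 0) with ⟨c, hc | hc⟩
    · left
      have hc0 : 0 ≤ c := by omega
      refine ⟨⟨((2 * c).toNat, (m - 2 * c).toNat), ⟨((2 * (c + z 2)).toNat,
        (2 * (c + z 1)).toNat), (z 5).toNat⟩⟩, ?_, ?_⟩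
      · rw [Finset.mem_coe]
        simp only [mem_E, mem_R, Nat.even_iff]
        refine ⟨⟨?_, ?_⟩, ⟨?_, ?_⟩, ?_, ?_⟩ <;> omega
      · ext i
        fin_cases i <;> simp [psi] <;> omega
    · right
      have hc0 : 0 ≤ c := by omega
      have hm : 3 ≤ m := by omega
      refine ⟨hm, ⟨((2 * c).toNat, (m - 3 - 2 * c).toNat), ⟨((2 * (c + z 2)).toNat,
        (2 * (c + z 1)).toNat), (z 5).toNat⟩⟩, ?_, ?_⟩
      · rw [Finset.mem_coe]
        simp only [mem_E, mem_R, Nat.even_iff]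
        refine ⟨⟨?_, ?_⟩, ⟨?_, ?_⟩, ?_, ?_⟩ <;> omega
      · ext i
        fin_cases i <;> simp [psi] <;> omega
  · rintro (⟨⟨⟨a1, k1⟩, ⟨a2, k2⟩, y⟩, ha, rfl⟩ | ⟨hm, ⟨⟨a1, k1⟩, ⟨a2, k2⟩, y⟩, ha, rfl⟩)
    · rw [Finset.mem_coe] at ha
      simp only [mem_E, mem_R, Nat.even_iff] at ha
      obtain ⟨⟨p1, p2⟩, ⟨p3, p4⟩, p5, p6⟩ := ha
      unfold IneqZ Fix
      simp [psi]
      omega
    · rw [Finset.mem_coe] at ha
      simp only [mem_E, mem_R, Nat.even_iff] at ha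
      obtain ⟨⟨p1, p2⟩, ⟨p3, p4⟩, p5, p6⟩ := ha
      unfold IneqZ Fix
      simp [psi]
      omega

theorem ncard_solF (m : ℕ) : {z : Fin 6 → ℤ | IneqZ m z ∧ Fix m z}.ncard = cntF m := by
  rw [solF_eq]
  have hpar : ∀ (r n : ℕ) (t : Tup2), t ∈ E (E (R r)) n → Even (t.1.1 : ℤ) := by
    rintro r n ⟨⟨a1, k1⟩, ⟨a2, k2⟩, y⟩ ht
    rw [mem_E] at ht
    exact_mod_cast ht.1.2
  by_cases hm : 3 ≤ m
  · have e : {z : Fin 6 → ℤ | ∃ _ : 3 ≤ m, z ∈ psi 1 '' (E (E (R 1)) (m - 3) : Set Tup2)} =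
        psi 1 '' (E (E (R 1)) (m - 3) : Set Tup2) := by
      ext z
      simp [hm]
    rw [e, Set.ncard_union_eq, Set.InjOn.ncard_image (psi_injOn _ _ _),
      Set.InjOn.ncard_image (psi_injOn _ _ _), Set.ncard_coe_finset, Set.ncard_coe_finset,
      cntF, if_pos hm]
    · rw [Set.disjoint_left]
      rintro _ ⟨t, ht, rfl⟩ ⟨t', ht', h⟩
      have h1 := hpar _ _ _ (Finset.mem_coe.mp ht)
      have h2 := hpar _ _ _ (Finset.mem_coe.mp ht')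
      have h0 := congrFun h 0
      simp [psi] at h0
      rw [Int.even_iff] at h1 h2
      omega
  · have e : {z : Fin 6 → ℤ | ∃ _ : 3 ≤ m, z ∈ psi 1 '' (E (E (R 1)) (m - 3) : Set Tup2)} =
        ∅ := by
      ext z
      simp [hm]
    rw [e, Set.union_empty, Set.InjOn.ncard_image (psi_injOn _ _ _), Set.ncard_coe_finset,
      cntF, if_neg hm, add_zero]

theorem cntF_zero : cntF 0 = 1 := by
  rw [cntF, if_neg (by norm_num)]
  decide

theorem fix_iff (m : ℕ) (hm : (0 : ℝ) < m) (z : Fin 6 → ℤ) :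
    (m : ℝ) • sig ((m : ℝ)⁻¹ • emb z) = emb z ↔ Fix m z := by
  have hsig : (m : ℝ) • sig ((m : ℝ)⁻¹ • emb z) =
      ![(z 0 : ℝ) + 2 * z 3, m - 3 * z 0 - z 1 - z 2 - 2 * z 3 - z 4, z 4 - z 3, -z 3,
        z 2 - z 3, z 5] := by
    ext i
    fin_cases i <;> simp [sig_apply, sigFun, emb] <;> field_simp
  rw [hsig]
  unfold Fix
  constructor
  · intro h
    have h0 := congrFun h 0
    have h1 := congrFun h 1
    have h2 := congrFun h 2
    have h3 := congrFun h 3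
    simp [emb] at h0 h1 h2
    have f0 : z 3 = 0 := h0
    have f2 : z 4 - z 3 = z 2 := by exact_mod_cast h2
    have f1 : (m : ℤ) - 3 * z 0 - z 1 - z 2 - 2 * z 3 - z 4 = z 1 := by exact_mod_cast h1
    refine ⟨f0, ?_, ?_⟩ <;> omega
  · rintro ⟨f0, f2, f1⟩
    have g0 : (z 3 : ℝ) = 0 := by exact_mod_cast f0
    have g2 : (z 2 : ℝ) = z 4 := by exact_mod_cast f2
    have g1 : 3 * (z 0 : ℝ) + 2 * z 1 + 2 * z 2 = m := by exact_mod_cast f1
    ext i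
    fin_cases i <;> simp [emb] <;> linarith

theorem chi_neg (m : ℕ) : Aex.chi m (-1) = cntF m := by
  unfold InvariantPolytope.chi
  split_ifs with hm
  · subst hm
    exact cntF_zero.symm
  · have hm' : (0 : ℝ) < (m : ℝ) := by
      have : 0 < m := Nat.pos_of_ne_zero hm
      exact_mod_cast this
    have e : Aex.fixedPts m (-1) = emb '' {z : Fin 6 → ℤ | IneqZ m z ∧ Fix m z} := by
      ext w
      have hact : Aex.act (-1) = sig := actHom_neg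
      constructor
      · rintro ⟨⟨z, rfl⟩, h2, h3⟩
        rw [hact] at h3
        exact ⟨z, ⟨(ineq_iff m z).mp ((mem_smul_Pex hm' _).mp h2), (fix_iff m hm' z).mp h3⟩, rfl⟩
      · rintro ⟨z, ⟨hz, hf⟩, rfl⟩
        refine ⟨⟨z, rfl⟩, (mem_smul_Pex hm' _).mpr ((ineq_iff m z).mpr hz), ?_⟩
        rw [hact]
        exact (fix_iff m hm' z).mpr hf
    rw [e, Set.ncard_image_of_injective _ emb_injective, ncard_solF]

end Run7.h611.Ehr
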