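import Pool.Agent.Run7.h611.Ehr.Defs

/-!
# The example: the polytope and the involution

Coordinates `w = (C, s, v₂, v₃, v₄, y)` of `ℝ⁶`. Put `c₁ = C/2`, `cᵢ = C/2 + vᵢ`, `x = C/2 + s`.
The polytope is given by `cᵢ ≥ 0`, `x ≥ 0`, `y ≥ 0`, `x + ∑ cᵢ ≤ 1`, `y + ∑ cᵢ ≤ 1`.
-/

open scoped Pointwise
open Polynomial

noncomputable section

namespace Run7.h611.Ehr

/-- The eight vertices (integer vectors). -/
def vertZ : Fin 8 → Fin 6 → ℤ :=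
  ![![0, 0, 0, 0, 0, 0], ![0, 0, 0, 0, 0, 1], ![0, 1, 0, 0, 0, 0], ![0, 1, 0, 0, 0, 1],
    ![2, -1, -1, -1, -1, 0], ![0, 0, 1, 0, 0, 0], ![0, 0, 0, 1, 0, 0], ![0, 0, 0, 0, 1, 0]]

/-- The eight vertices. -/
def vert (k : Fin 8) (i : Fin 6) : ℝ := (vertZ k i : ℝ)

/-- The inequalities of the polytope `mP`. -/
def Ineq (m : ℝ) (w : Fin 6 → ℝ) : Prop :=
  0 ≤ w 0 / 2 ∧ 0 ≤ w 0 / 2 + w 2 ∧ 0 ≤ w 0 / 2 + w 3 ∧ 0 ≤ w 0 / 2 + w 4 ∧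
  0 ≤ w 0 / 2 + w 1 ∧ 0 ≤ w 5 ∧
  w 0 / 2 + w 1 + (2 * w 0 + w 2 + w 3 + w 4) ≤ m ∧
  w 5 + (2 * w 0 + w 2 + w 3 + w 4) ≤ m

/-- The polytope. -/
def Pex : Set (Fin 6 → ℝ) := {w | Ineq 1 w}

theorem mem_smul_Pex {m : ℝ} (hm : 0 < m) (w : Fin 6 → ℝ) : w ∈ m • Pex ↔ Ineq m w := by
  rw [Set.mem_smul_set_iff_inv_smul_mem₀ hm.ne']
  have h0 : ∀ i, (m⁻¹ • w) i = w i / m := by
    intro i
    simp [div_eq_inv_mul]
  simp only [Pex, Set.mem_ofPred_eq, Ineq, h0]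
  have e1 : ∀ a : ℝ, 0 ≤ a / m ↔ 0 ≤ a := fun a => by
    rw [le_div_iff₀ hm, zero_mul]
  have e2 : ∀ a : ℝ, a / m ≤ 1 ↔ a ≤ m := fun a => by
    rw [div_le_iff₀ hm, one_mul]
  rw [← e1 (w 0 / 2), ← e1 (w 0 / 2 + w 2), ← e1 (w 0 / 2 + w 3), ← e1 (w 0 / 2 + w 4),
    ← e1 (w 0 / 2 + w 1), ← e1 (w 5), ← e2 (w 0 / 2 + w 1 + (2 * w 0 + w 2 + w 3 + w 4)),
    ← e2 (w 5 + (2 * w 0 + w 2 + w 3 + w 4))]
  have f1 : w 0 / m / 2 = w 0 / 2 / m := by ring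
  have f2 : w 0 / m / 2 + w 2 / m = (w 0 / 2 + w 2) / m := by ring
  have f3 : w 0 / m / 2 + w 3 / m = (w 0 / 2 + w 3) / m := by ring
  have f4 : w 0 / m / 2 + w 4 / m = (w 0 / 2 + w 4) / m := by ring
  have f5 : w 0 / m / 2 + w 1 / m = (w 0 / 2 + w 1) / m := by ring
  have f6 : (w 0 / 2 + w 1) / m + (2 * (w 0 / m) + w 2 / m + w 3 / m + w 4 / m) =
    (w 0 / 2 + w 1 + (2 * w 0 + w 2 + w 3 + w 4)) / m := by ring
  have f7 : w 5 / m + (2 * (w 0 / m) + w 2 / m + w 3 / m + w 4 / m) =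
    (w 5 + (2 * w 0 + w 2 + w 3 + w 4)) / m := by ring
  rw [f2, f3, f4, f5, f6, f7, f1]

theorem convex_Pex : Convex ℝ Pex := by
  intro a ha b hb p q hp hq hpq
  simp only [Pex, Set.mem_ofPred_eq, Ineq, Pi.add_apply, Pi.smul_apply, smul_eq_mul] at ha hb ⊢
  obtain ⟨a1, a2, a3, a4, a5, a6, a7, a8⟩ := ha
  obtain ⟨b1, b2, b3, b4, b5, b6, b7, b8⟩ := hb
  have key : ∀ u v : ℝ, 0 ≤ u → 0 ≤ v → 0 ≤ p * u + q * v := fun u v hu hv =>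
    add_nonneg (mul_nonneg hp hu) (mul_nonneg hq hv)
  have key2 : ∀ u v : ℝ, u ≤ 1 → v ≤ 1 → p * u + q * v ≤ 1 := fun u v hu hv => by
    nlinarith [mul_le_mul_of_nonneg_left hu hp, mul_le_mul_of_nonneg_left hv hq]
  refine ⟨?_, ?_, ?_, ?_, ?_, ?_, ?_, ?_⟩
  · linarith [key _ _ a1 b1]
  · linarith [key _ _ a2 b2]
  · linarith [key _ _ a3 b3]
  · linarith [key _ _ a4 b4]
  · linarith [key _ _ a5 b5]
  · linarith [key _ _ a6 b6]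
  · linarith [key2 _ _ a7 b7]
  · linarith [key2 _ _ a8 b8]

theorem vert_mem (k : Fin 8) : vert k ∈ Pex := by
  fin_cases k <;> simp [Pex, Ineq, vert, vertZ] <;> norm_num

/-- A point with nonnegative weights at the vertices. -/
theorem mem_hull_of_weights (w : Fin 6 → ℝ) (c : Fin 8 → ℝ) (h0 : ∀ k, 0 ≤ c k)
    (h1 : ∑ k, c k = 1) (h : ∑ k, c k • vert k = w) : w ∈ convexHull ℝ (Set.range vert) := by
  rw [← h]
  exact (convex_convexHull ℝ _).sum_mem (fun k _ => h0 k) h1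
    (fun k _ => subset_convexHull ℝ _ ⟨k, rfl⟩)

theorem Pex_eq : Pex = convexHull ℝ (Set.range vert) := by
  apply Set.Subset.antisymm
  · intro w hw
    obtain ⟨a1, a2, a3, a4, a5, a6, a7, a8⟩ := hw
    rcases le_total (w 0 / 2 + w 1) (w 5) with hxy | hxy
    · -- x ≤ y
      refine mem_hull_of_weights w ![1 - (w 5 + (2 * w 0 + w 2 + w 3 + w 4)),
        w 5 - (w 0 / 2 + w 1), 0, w 0 / 2 + w 1, w 0 / 2, w 0 / 2 + w 2, w 0 / 2 + w 3,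
        w 0 / 2 + w 4] ?_ ?_ ?_
      · intro k
        fin_cases k <;> simp <;> linarith
      · simp [Fin.sum_univ_succ]
        ring
      · ext i
        fin_cases i <;> simp [Fin.sum_univ_succ, vert, vertZ] <;> ring
    · refine mem_hull_of_weights w ![1 - (w 0 / 2 + w 1 + (2 * w 0 + w 2 + w 3 + w 4)),
        0, (w 0 / 2 + w 1) - w 5, w 5, w 0 / 2, w 0 / 2 + w 2, w 0 / 2 + w 3,
        w 0 / 2 + w 4] ?_ ?_ ?_
      · intro k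
        fin_cases k <;> simp <;> linarith
      · simp [Fin.sum_univ_succ]
        ring
      · ext i
        fin_cases i <;> simp [Fin.sum_univ_succ, vert, vertZ] <;> ring
  · apply convexHull_min _ convex_Pex
    rintro _ ⟨k, rfl⟩
    exact vert_mem k

end Run7.h611.Ehr
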