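import Pool.Agent.Run7.h611.Ehr.Series

/-!
# The example with a linear action

The polytope of `Geo` is translated so that a lattice point which is fixed by the involution is the
origin. The values of the equivariant h*-series are `1 + t + 2 t³` at the identity and
`1 - t + 2 t²` at the involution. So `h*_1 = 1`, but the trivial character does not occur in the
coefficient of `t`.
-/

open scoped Pointwise

noncomputable section

namespace Run7.h611.Ehr.Lin

/-- The fixed lattice point. -/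
def ctr : Fin 6 → ℤ := ![1, -1, 0, 0, 0, 0]

/-- The matrix of the involution. -/
def S : Matrix (Fin 6) (Fin 6) ℤ :=
  !![1, 0, 0, 2, 0, 0; -3, -1, -1, -2, -1, 0; 0, 0, 0, -1, 1, 0; 0, 0, 0, -1, 0, 0;
    0, 0, 1, -1, 0, 0; 0, 0, 0, 0, 0, 1]

theorem S_mul_S : S * S = 1 := by decide

/-- The involution as an element of the general linear group. -/
def SU : Matrix.GeneralLinearGroup (Fin 6) ℤ := ⟨S, S, S_mul_S, S_mul_S⟩

theorem SU_mul_SU : SU * SU = 1 := Units.ext S_mul_S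

/-- The linear action of the group `{1, -1}`. -/
def rho : ℤˣ →* Matrix.GeneralLinearGroup (Fin 6) ℤ where
  toFun u := if u = 1 then 1 else SU
  map_one' := by simp
  map_mul' u v := by
    rcases Int.units_eq_one_or u with rfl | rfl <;> rcases Int.units_eq_one_or v with rfl | rfl
    · simp
    · simp
    · simp
    · have h : ¬ ((-1 : ℤˣ) = 1) := by decide
      simp only [mul_neg, mul_one, neg_neg, if_true, h, if_false]
      exact SU_mul_SU.symm

theorem rho_one : rho 1 = 1 := map_one _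

theorem rho_neg : rho (-1) = SU := by
  have h : ¬ ((-1 : ℤˣ) = 1) := by decide
  simp [rho, h]

theorem rho_neg_coe : (rho (-1) : Matrix (Fin 6) (Fin 6) ℤ) = S := by
  rw [rho_neg]
  rfl

/-- The translated vertices. -/
def vz (k : Fin 8) : Fin 6 → ℤ := vertZ k - ctr

/-- The set of the translated vertices. -/
def Vf : Finset (Fin 6 → ℤ) := Finset.univ.image vz

theorem S_mulVec (z : Fin 6 → ℤ) : S.mulVec z =
    ![z 0 + 2 * z 3, -3 * z 0 - z 1 - z 2 - 2 * z 3 - z 4, z 4 - z 3, -z 3, z 2 - z 3, z 5] := by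
  ext i
  fin_cases i <;> simp [S, Matrix.mulVec, dotProduct, Fin.sum_univ_succ] <;> ring

theorem S_vz (k : Fin 8) : ∃ l, S.mulVec (vz k) = vz l := by
  revert k
  decide

theorem Vf_invariant (g : ℤˣ) : ∀ v ∈ Vf, Matrix.mulVec (rho g : Matrix (Fin 6) (Fin 6) ℤ) v ∈ Vf := by
  intro v hv
  rw [Vf, Finset.mem_image] at hv
  obtain ⟨k, -, rfl⟩ := hv
  rcases Int.units_eq_one_or g with rfl | rfl
  · rw [rho_one]
    simp only [Units.val_one, Matrix.one_mulVec]
    exact Finset.mem_image_of_mem _ (Finset.mem_univ _)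
  · rw [rho_neg_coe]
    obtain ⟨l, hl⟩ := S_vz k
    rw [hl]
    exact Finset.mem_image_of_mem _ (Finset.mem_univ _)

/-- The polytope. -/
def PL : Set (Fin 6 → ℝ) :=
  convexHull ℝ ((fun v : Fin 6 → ℤ => fun j => ((v j : ℤ) : ℝ)) '' (Vf : Set (Fin 6 → ℤ)))

/-- The translation. -/
def tr : (Fin 6 → ℝ) →ᵃ[ℝ] (Fin 6 → ℝ) :=
  (AffineEquiv.constVAdd ℝ (Fin 6 → ℝ) (-emb ctr) : (Fin 6 → ℝ) ≃ᵃ[ℝ] (Fin 6 → ℝ))

theorem tr_apply (w : Fin 6 → ℝ) : tr w = w - emb ctr := by
  simp [tr, sub_eq_neg_add]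

theorem PL_eq : PL = tr '' Pex := by
  rw [Pex_eq, AffineMap.image_convexHull, PL]
  congr 1
  ext w
  simp only [Set.mem_image, Finset.mem_coe, Vf, Finset.mem_image, Finset.mem_univ, true_and,
    Set.mem_range]
  constructor
  · rintro ⟨_, ⟨k, rfl⟩, rfl⟩
    refine ⟨vert k, ⟨k, rfl⟩, ?_⟩
    rw [tr_apply]
    ext i
    simp [vert, vz, emb]
  · rintro ⟨_, ⟨k, rfl⟩, rfl⟩
    refine ⟨vz k, ⟨k, rfl⟩, ?_⟩
    rw [tr_apply]
    ext i
    simp [vert, vz, emb]

theorem mem_smul_PL {m : ℕ} (hm : (0 : ℝ) < m) (z : Fin 6 → ℤ) :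
    (fun j => ((z j : ℤ) : ℝ)) ∈ (m : ℝ) • PL ↔ IneqZ m (z + (m : ℤ) • ctr) := by
  rw [← ineq_iff, ← mem_smul_Pex hm, PL_eq]
  constructor
  · rintro ⟨_, ⟨w, hw, rfl⟩, h⟩
    refine ⟨w, hw, ?_⟩
    ext i
    have hi := congrFun h i
    simp only [tr_apply, Pi.smul_apply, Pi.sub_apply, smul_eq_mul, emb] at hi
    simp only [Pi.smul_apply, smul_eq_mul, Pi.add_apply, Int.cast_add, Int.cast_mul,
      Int.cast_natCast]
    linarith
  · rintro ⟨w, hw, h⟩
    refine ⟨tr w, ⟨w, hw, rfl⟩, ?_⟩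
    ext i
    have hi := congrFun h i
    simp only [Pi.smul_apply, smul_eq_mul, Pi.add_apply, Int.cast_add, Int.cast_mul,
      Int.cast_natCast] at hi
    simp only [tr_apply, Pi.smul_apply, Pi.sub_apply, smul_eq_mul, emb]
    linarith

theorem zero_smul_PL (z : Fin 6 → ℤ) :
    (fun j => ((z j : ℤ) : ℝ)) ∈ ((0 : ℕ) : ℝ) • PL ↔ z = 0 := by
  have hne : PL.Nonempty := by
    rw [PL_eq]
    exact ⟨_, _, vert_mem 0, rfl⟩
  rw [Nat.cast_zero, Set.zero_smul_set hne, Set.mem_zero]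
  constructor
  · intro h
    ext i
    have := congrFun h i
    simpa using this
  · rintro rfl
    ext i
    simp

/-- The number of the fixed lattice points of `mP`. -/
def fx (g : ℤˣ) (m : ℕ) : ℕ :=
  Set.ncard {x : Fin 6 → ℤ |
    (fun j => ((x j : ℤ) : ℝ)) ∈ (m : ℝ) • PL ∧
      Matrix.mulVec (rho g : Matrix (Fin 6) (Fin 6) ℤ) x = x}

theorem fx_zero (g : ℤˣ) : fx g 0 = 1 := by
  rw [fx]
  have e : {x : Fin 6 → ℤ | (fun j => ((x j : ℤ) : ℝ)) ∈ ((0 : ℕ) : ℝ) • PL ∧
      Matrix.mulVec (rho g : Matrix (Fin 6) (Fin 6) ℤ) x = x} = {0} := by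
    ext x
    simp only [Set.mem_ofPred_eq, Set.mem_singleton_iff, zero_smul_PL]
    constructor
    · rintro ⟨h, -⟩
      exact h
    · rintro rfl
      exact ⟨rfl, Matrix.mulVec_zero _⟩
  rw [e, Set.ncard_singleton]

/-- The shift. -/
theorem shift_injective (m : ℕ) :
    Function.Injective fun z : Fin 6 → ℤ => z - (m : ℤ) • ctr := fun a b h => by
  simpa using h

theorem fx_one (m : ℕ) : fx 1 m = cnt m := by
  rcases Nat.eq_zero_or_pos m with rfl | hm
  · rw [fx_zero, cnt_zero]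
  · have hm' : (0 : ℝ) < (m : ℝ) := by exact_mod_cast hm
    rw [fx, ← ncard_sol]
    have e : {x : Fin 6 → ℤ | (fun j => ((x j : ℤ) : ℝ)) ∈ (m : ℝ) • PL ∧
        Matrix.mulVec (rho 1 : Matrix (Fin 6) (Fin 6) ℤ) x = x} =
        (fun z : Fin 6 → ℤ => z - (m : ℤ) • ctr) '' {z : Fin 6 → ℤ | IneqZ m z} := by
      ext x
      simp only [Set.mem_ofPred_eq, Set.mem_image, mem_smul_PL hm', rho_one, Units.val_one,
        Matrix.one_mulVec, and_true]
      constructor
      · intro h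
        exact ⟨_, h, by simp⟩
      · rintro ⟨z, hz, rfl⟩
        simpa using hz
    rw [e, Set.ncard_image_of_injective _ (shift_injective m)]

theorem fix_iff' (m : ℕ) (z : Fin 6 → ℤ) :
    Matrix.mulVec S z = z ↔ Fix m (z + (m : ℤ) • ctr) := by
  rw [S_mulVec]
  unfold Fix
  simp only [Pi.add_apply, Pi.smul_apply, smul_eq_mul, ctr]
  constructor
  · intro h
    have h0 := congrFun h 0
    have h1 := congrFun h 1
    have h2 := congrFun h 2
    simp at h0 h1 h2
    simp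
    refine ⟨?_, ?_, ?_⟩ <;> omega
  · rintro ⟨f0, f2, f1⟩
    simp at f0 f1 f2
    ext i
    fin_cases i <;> simp <;> omega

theorem fx_neg (m : ℕ) : fx (-1) m = cntF m := by
  rcases Nat.eq_zero_or_pos m with rfl | hm
  · rw [fx_zero, cntF_zero]
  · have hm' : (0 : ℝ) < (m : ℝ) := by exact_mod_cast hm
    rw [fx, ← ncard_solF]
    have e : {x : Fin 6 → ℤ | (fun j => ((x j : ℤ) : ℝ)) ∈ (m : ℝ) • PL ∧
        Matrix.mulVec (rho (-1) : Matrix (Fin 6) (Fin 6) ℤ) x = x} =
        (fun z : Fin 6 → ℤ => z - (m : ℤ) • ctr) '' {z : Fin 6 → ℤ | IneqZ m z ∧ Fix m z} := by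
      ext x
      simp only [Set.mem_ofPred_eq, Set.mem_image, mem_smul_PL hm', rho_neg_coe, fix_iff' m]
      constructor
      · intro h
        exact ⟨_, h, by simp⟩
      · rintro ⟨z, hz, rfl⟩
        simpa using hz
    rw [e, Set.ncard_image_of_injective _ (shift_injective m)]

/-! ### The series -/

/-- The equivariant h*-series. -/
def Phi (g : ℤˣ) : PowerSeries ℤ :=
  PowerSeries.mk (fun m : ℕ => ((fx g m : ℕ) : ℤ)) * (1 - PowerSeries.X) *
    ((Matrix.det (1 - (Polynomial.X : Polynomial ℤ) •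
      (rho g : Matrix (Fin 6) (Fin 6) ℤ).map Polynomial.C) : Polynomial ℤ) : PowerSeries ℤ)

theorem det_one : Matrix.det (1 - (Polynomial.X : Polynomial ℤ) •
      (rho 1 : Matrix (Fin 6) (Fin 6) ℤ).map Polynomial.C) = (1 - Polynomial.X) ^ 6 := by
  rw [rho_one]
  have e : (1 : Matrix (Fin 6) (Fin 6) (Polynomial ℤ)) - (Polynomial.X : Polynomial ℤ) •
      (((1 : Matrix.GeneralLinearGroup (Fin 6) ℤ) : Matrix (Fin 6) (Fin 6) ℤ)).map Polynomial.C =
      Matrix.diagonal fun _ => (1 - Polynomial.X : Polynomial ℤ) := by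
    ext i j : 2
    by_cases hij : i = j
    · subst hij
      simp
    · simp [hij]
  rw [e, Matrix.det_diagonal]
  simp

theorem det_neg_map : (Matrix.det (1 - (Polynomial.X : Polynomial ℤ) •
      S.map Polynomial.C)).map (Int.castRingHom ℝ) =
      (1 - Polynomial.X) ^ 3 * (1 + Polynomial.X) ^ 3 := by
  rw [← detOneSub_neg, InvariantPolytope.detOneSub]
  have h : ((Aex.act (-1)).linear : (Fin 6 → ℝ) →ₗ[ℝ] (Fin 6 → ℝ)) = sigLin := by
    have : Aex.act (-1) = sig := actHom_neg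
    rw [this]
    rfl
  rw [h]
  have h2 := RingHom.map_det (Polynomial.mapRingHom (Int.castRingHom ℝ))
    (1 - (Polynomial.X : Polynomial ℤ) • S.map Polynomial.C)
  rw [Polynomial.coe_mapRingHom] at h2
  rw [h2]
  congr 1
  ext i j : 2
  rw [LinearMap.toMatrix']
  fin_cases i <;> fin_cases j <;>
    simp [S, sigLin] <;> ring

theorem det_one_map : (Matrix.det (1 - (Polynomial.X : Polynomial ℤ) •
      (rho 1 : Matrix (Fin 6) (Fin 6) ℤ).map Polynomial.C)).map (Int.castRingHom ℝ) =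
      Aex.detOneSub 1 := by
  rw [det_one, detOneSub_one]
  simp

theorem map_Phi (g : ℤˣ) : PowerSeries.map (Int.castRingHom ℝ) (Phi g) = Aex.hStarSeries g := by
  have hdet : (Matrix.det (1 - (Polynomial.X : Polynomial ℤ) •
      (rho g : Matrix (Fin 6) (Fin 6) ℤ).map Polynomial.C)).map (Int.castRingHom ℝ) =
      Aex.detOneSub g := by
    rcases Int.units_eq_one_or g with rfl | rfl
    · exact det_one_map
    · rw [detOneSub_neg, ← det_neg_map, rho_neg_coe]
  have hfx : ∀ m, fx g m = Aex.chi m g := by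
    intro m
    rcases Int.units_eq_one_or g with rfl | rfl
    · rw [fx_one, chi_one]
    · rw [fx_neg, chi_neg]
  rw [Phi, InvariantPolytope.hStarSeries, map_mul, map_mul, Polynomial.coe_mul, ← hdet, mul_assoc]
  congr 1
  · ext m
    simp [hfx]
  · congr 1
    · simp
    · ext i
      simp

theorem coeff_Phi (g : ℤˣ) (i : ℕ) :
    ((PowerSeries.coeff (R := ℤ) i (Phi g) : ℤ) : ℝ) = Aex.hStar i g := by
  rw [InvariantPolytope.hStar, ← map_Phi, PowerSeries.coeff_map]
  rfl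

theorem Phi_polynomial : ∃ N : ℕ, ∀ g : ℤˣ, ∀ i : ℕ, N ≤ i →
    PowerSeries.coeff (R := ℤ) i (Phi g) = 0 := by
  obtain ⟨N, hN⟩ := isPolynomial
  refine ⟨N + 1, fun g i hi => ?_⟩
  have h := hN i (by omega) g
  rw [← coeff_Phi] at h
  exact_mod_cast h

theorem coeff_one_one : PowerSeries.coeff (R := ℤ) 1 (Phi 1) = 1 := by
  have h : Aex.hStar 1 1 = 1 := by
    have h2 : (2 : PowerSeries ℝ) = PowerSeries.C (2 : ℝ) :=
      (map_ofNat (PowerSeries.C : ℝ →+* PowerSeries ℝ) 2).symm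
    rw [InvariantPolytope.hStar, hStarSeries_one, h2]
    simp only [map_add, PowerSeries.coeff_C_mul, PowerSeries.coeff_X_pow, PowerSeries.coeff_one,
      PowerSeries.coeff_X]
    norm_num
  rw [← coeff_Phi] at h
  exact_mod_cast h

theorem coeff_one_neg : PowerSeries.coeff (R := ℤ) 1 (Phi (-1)) = -1 := by
  have h : Aex.hStar 1 (-1) = -1 := by
    have h2 : (2 : PowerSeries ℝ) = PowerSeries.C (2 : ℝ) :=
      (map_ofNat (PowerSeries.C : ℝ →+* PowerSeries ℝ) 2).symm
    rw [InvariantPolytope.hStar, hStarSeries_neg, h2]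
    simp only [map_add, map_sub, PowerSeries.coeff_C_mul, PowerSeries.coeff_X_pow,
      PowerSeries.coeff_one, PowerSeries.coeff_X]
    norm_num
  rw [← coeff_Phi] at h
  exact_mod_cast h

theorem fullDim_PL : vectorSpan ℝ PL = ⊤ := by
  have h1 : affineSpan ℝ PL = ⊤ := by
    rw [PL_eq]
    have h := fullDim_Pex
    have e : tr '' Pex = (AffineEquiv.constVAdd ℝ (Fin 6 → ℝ) (-emb ctr)) '' Pex := rfl
    rw [e]
    exact (AffineEquiv.span_eq_top_iff (AffineEquiv.constVAdd ℝ (Fin 6 → ℝ) (-emb ctr))).mp h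
  rw [← direction_affineSpan, h1, AffineSubspace.direction_top]

end Run7.h611.Ehr.Lin
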