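import Pool.Agent.Run7.h611.Ehr.Count

/-!
# The example: the equivariant H*-series
-/

open scoped Pointwise

noncomputable section

namespace Run7.h611.Ehr

open PowerSeries

theorem gf_cnt : gf cnt = (mk 1) ^ 4 * gf (fun k => (k + 1) ^ 2) +
    X ^ 2 * ((mk 1) ^ 4 * gf (fun k => k * (k + 1))) := by
  have h0 : gf (fun n => (T (T (T (T Q0))) n).card) =
      (mk 1) ^ 4 * gf (fun k => (k + 1) ^ 2) := by
    rw [gf_T, gf_T, gf_T, gf_T]
    have : (fun n => (Q0 n).card) = fun k => (k + 1) ^ 2 := by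
      funext k
      simp [Q0, pow_two]
    rw [this]
    ring
  have h1 : gf (fun n => (T (T (T (T Q1))) n).card) =
      (mk 1) ^ 4 * gf (fun k => k * (k + 1)) := by
    rw [gf_T, gf_T, gf_T, gf_T]
    have : (fun n => (Q1 n).card) = fun k => k * (k + 1) := by
      funext k
      simp [Q1]
    rw [this]
    ring
  rw [← h0, ← h1]
  ext n
  rw [map_add, coeff_X_pow_mul']
  simp only [gf, coeff_mk, cnt]
  split_ifs <;> simp

theorem gf_cntF : gf cntF = gf ev ^ 2 * gf (fun k => if Even k then k + 1 else 0) +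
    X ^ 3 * (gf ev ^ 2 * gf (fun k => if Even k then k + 2 else 0)) := by
  have h0 : gf (fun n => (E (E (R 0)) n).card) =
      gf ev ^ 2 * gf (fun k => if Even k then k + 1 else 0) := by
    rw [gf_E, gf_E]
    have : (fun n => (R 0 n).card) = fun k => if Even k then k + 1 else 0 := by
      funext k
      unfold R
      split_ifs <;> simp
    rw [this]
    ring
  have h1 : gf (fun n => (E (E (R 1)) n).card) =
      gf ev ^ 2 * gf (fun k => if Even k then k + 2 else 0) := by
    rw [gf_E, gf_E]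
    have : (fun n => (R 1 n).card) = fun k => if Even k then k + 2 else 0 := by
      funext k
      unfold R
      split_ifs <;> simp
    rw [this]
    ring
  rw [← h0, ← h1]
  ext n
  rw [map_add, coeff_X_pow_mul']
  simp only [gf, coeff_mk, cntF]
  split_ifs <;> simp

theorem one_mul_one : (mk 1 : PowerSeries ℝ) * (1 - X) = 1 := mk_one_mul_one_sub_eq_one ℝ

theorem series_a : (1 - X) ^ 3 * gf (fun k => (k + 1) ^ 2) = 1 + X := by
  have e : (1 - X) ^ 3 * gf (fun k => (k + 1) ^ 2) = gf (fun k => (k + 1) ^ 2) -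
      3 * (X ^ 1 * gf (fun k => (k + 1) ^ 2)) + 3 * (X ^ 2 * gf (fun k => (k + 1) ^ 2)) -
      X ^ 3 * gf (fun k => (k + 1) ^ 2) := by ring
  rw [e]
  ext n
  have h3 : (3 : PowerSeries ℝ) = C (3 : ℝ) := (map_ofNat (C : ℝ →+* PowerSeries ℝ) 3).symm
  rw [h3]
  simp only [map_sub, map_add, coeff_C_mul, coeff_X_pow_mul', gf, coeff_mk, coeff_one, coeff_X]
  rcases n with _ | _ | _ | n
  · simp
  · norm_num
  · norm_num
  · have e1 : n + 1 + 1 + 1 - 1 = n + 2 := by omega
    have e2 : n + 1 + 1 + 1 - 2 = n + 1 := by omega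
    have e3 : n + 1 + 1 + 1 - 3 = n := by omega
    rw [e1, e2, e3, if_pos (by omega), if_pos (by omega), if_pos (by omega), if_neg (by omega),
      if_neg (by omega)]
    push_cast
    ring

theorem series_b : (1 - X) ^ 3 * gf (fun k => k * (k + 1)) = 2 * X := by
  have e : (1 - X) ^ 3 * gf (fun k => k * (k + 1)) = gf (fun k => k * (k + 1)) -
      3 * (X ^ 1 * gf (fun k => k * (k + 1))) + 3 * (X ^ 2 * gf (fun k => k * (k + 1))) -
      X ^ 3 * gf (fun k => k * (k + 1)) := by ring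
  rw [e]
  ext n
  have h3 : (3 : PowerSeries ℝ) = C (3 : ℝ) := (map_ofNat (C : ℝ →+* PowerSeries ℝ) 3).symm
  have h2 : (2 : PowerSeries ℝ) = C (2 : ℝ) := (map_ofNat (C : ℝ →+* PowerSeries ℝ) 2).symm
  rw [h3, h2]
  simp only [map_sub, map_add, coeff_C_mul, coeff_X_pow_mul', gf, coeff_mk, coeff_X]
  rcases n with _ | _ | _ | n
  · simp
  · norm_num
  · norm_num
  · have e1 : n + 1 + 1 + 1 - 1 = n + 2 := by omega
    have e2 : n + 1 + 1 + 1 - 2 = n + 1 := by omega
    have e3 : n + 1 + 1 + 1 - 3 = n := by omega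
    rw [e1, e2, e3, if_pos (by omega), if_pos (by omega), if_pos (by omega), if_neg (by omega)]
    push_cast
    ring

theorem series_c : (1 - X ^ 2) * gf ev = 1 := by
  have e : (1 - X ^ 2) * gf ev = gf ev - X ^ 2 * gf ev := by ring
  rw [e]
  ext n
  simp only [map_sub, coeff_X_pow_mul', gf, coeff_mk, coeff_one, ev]
  rcases n with _ | _ | n
  · simp
  · norm_num
  · have e2 : n + 1 + 1 - 2 = n := by omega
    rw [e2, if_pos (by omega : 2 ≤ n + 1 + 1), if_neg (by omega : ¬ n + 1 + 1 = 0)]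
    have e3 : Even (n + 1 + 1) ↔ Even n := by
      rw [Nat.even_iff, Nat.even_iff]
      omega
    rw [if_congr e3 rfl rfl]
    simp

theorem series_d (r : ℕ) (s : PowerSeries ℝ)
    (hs : ∀ n, coeff n s = if n = 0 then (1 + r : ℝ) else if n = 2 then (1 - r : ℝ) else 0) :
    (1 - X ^ 2) ^ 2 * gf (fun k => if Even k then k + 1 + r else 0) = s := by
  have e : (1 - X ^ 2) ^ 2 * gf (fun k => if Even k then k + 1 + r else 0) =
      gf (fun k => if Even k then k + 1 + r else 0) -
      2 * (X ^ 2 * gf (fun k => if Even k then k + 1 + r else 0)) +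
      X ^ 4 * gf (fun k => if Even k then k + 1 + r else 0) := by ring
  rw [e]
  ext n
  have h2 : (2 : PowerSeries ℝ) = C (2 : ℝ) := (map_ofNat (C : ℝ →+* PowerSeries ℝ) 2).symm
  rw [h2, hs]
  simp only [map_sub, map_add, coeff_C_mul, coeff_X_pow_mul', gf, coeff_mk]
  rcases n with _ | _ | _ | _ | n
  · simp
  · norm_num
  · norm_num
    ring
  · norm_num
  · have e1 : n + 1 + 1 + 1 + 1 - 2 = n + 2 := by omega
    have e2 : n + 1 + 1 + 1 + 1 - 4 = n := by omega
    rw [e1, e2, if_pos (by omega : 2 ≤ n + 1 + 1 + 1 + 1), if_pos (by omega : 4 ≤ n + 1 + 1 + 1 + 1),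
      if_neg (by omega : ¬ n + 1 + 1 + 1 + 1 = 0), if_neg (by omega : ¬ n + 1 + 1 + 1 + 1 = 2)]
    have e3 : Even (n + 1 + 1 + 1 + 1) ↔ Even n := by
      rw [Nat.even_iff, Nat.even_iff]
      omega
    have e4 : Even (n + 2) ↔ Even n := by
      rw [Nat.even_iff, Nat.even_iff]
      omega
    rw [if_congr e3 rfl rfl, if_congr e4 rfl rfl]
    split_ifs
    · push_cast
      ring
    · simp

theorem series_d0 : (1 - X ^ 2) ^ 2 * gf (fun k => if Even k then k + 1 else 0) = 1 + X ^ 2 := by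
  refine series_d 0 _ fun n => ?_
  rw [map_add, coeff_one, coeff_X_pow]
  rcases n with _ | _ | _ | n <;> simp

theorem series_d1 : (1 - X ^ 2) ^ 2 * gf (fun k => if Even k then k + 2 else 0) = 2 := by
  refine series_d 1 _ fun n => ?_
  have h2 : (2 : PowerSeries ℝ) = C (2 : ℝ) := (map_ofNat (C : ℝ →+* PowerSeries ℝ) 2).symm
  rw [h2, coeff_C]
  rcases n with _ | _ | _ | n <;> norm_num

theorem hStarSeries_one : Aex.hStarSeries 1 = 1 + X + 2 * X ^ 3 := by
  rw [InvariantPolytope.hStarSeries, detOneSub_one]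
  have h : (fun m => (Aex.chi m 1 : ℝ)) = fun m => (cnt m : ℝ) := by
    funext m
    rw [chi_one]
  rw [h]
  change gf cnt * _ = _
  rw [gf_cnt]
  have e : ((((1 : Polynomial ℝ) - Polynomial.X) * (1 - Polynomial.X) ^ 6 : Polynomial ℝ) :
      PowerSeries ℝ) = (1 - X) ^ 7 := by
    push_cast
    ring
  rw [e]
  calc ((mk 1) ^ 4 * gf (fun k => (k + 1) ^ 2) +
    X ^ 2 * ((mk 1) ^ 4 * gf (fun k => k * (k + 1)))) * (1 - X) ^ 7
      = (mk 1 * (1 - X)) ^ 4 * ((1 - X) ^ 3 * gf (fun k => (k + 1) ^ 2)) +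
        X ^ 2 * ((mk 1 * (1 - X)) ^ 4 * ((1 - X) ^ 3 * gf (fun k => k * (k + 1)))) := by ring
    _ = 1 + X + 2 * X ^ 3 := by
      rw [one_mul_one, series_a, series_b]
      ring

theorem hStarSeries_neg : Aex.hStarSeries (-1) = 1 - X + 2 * X ^ 2 := by
  rw [InvariantPolytope.hStarSeries, detOneSub_neg]
  have h : (fun m => (Aex.chi m (-1) : ℝ)) = fun m => (cntF m : ℝ) := by
    funext m
    rw [chi_neg]
  rw [h]
  change gf cntF * _ = _
  rw [gf_cntF]
  have e : ((((1 : Polynomial ℝ) - Polynomial.X) *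
      ((1 - Polynomial.X) ^ 3 * (1 + Polynomial.X) ^ 3) : Polynomial ℝ) :
      PowerSeries ℝ) = (1 - X) ^ 4 * (1 + X) ^ 3 := by
    push_cast
    ring
  rw [e]
  have hne : (1 + X : PowerSeries ℝ) ≠ 0 := by
    intro h0
    have := congrArg (coeff 0) h0
    simp at this
  apply mul_right_cancel₀ hne
  calc (gf ev ^ 2 * gf (fun k => if Even k then k + 1 else 0) +
    X ^ 3 * (gf ev ^ 2 * gf (fun k => if Even k then k + 2 else 0))) *
      ((1 - X) ^ 4 * (1 + X) ^ 3) * (1 + X)
      = ((1 - X ^ 2) * gf ev) ^ 2 *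
        ((1 - X ^ 2) ^ 2 * gf (fun k => if Even k then k + 1 else 0)) +
        X ^ 3 * (((1 - X ^ 2) * gf ev) ^ 2 *
          ((1 - X ^ 2) ^ 2 * gf (fun k => if Even k then k + 2 else 0))) := by ring
    _ = (1 - X + 2 * X ^ 2) * (1 + X) := by
      rw [series_c, series_d0, series_d1]
      ring

theorem isPolynomial : Aex.IsPolynomial := by
  refine ⟨3, fun i hi g => ?_⟩
  have h2 : (2 : PowerSeries ℝ) = C (2 : ℝ) := (map_ofNat (C : ℝ →+* PowerSeries ℝ) 2).symm
  rcases Int.units_eq_one_or g with rfl | rfl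
  · rw [InvariantPolytope.hStar, hStarSeries_one, h2]
    simp only [map_add, coeff_C_mul, coeff_X_pow, coeff_one, coeff_X]
    rw [if_neg (by omega), if_neg (by omega), if_neg (by omega)]
    simp
  · rw [InvariantPolytope.hStar, hStarSeries_neg, h2]
    simp only [map_add, map_sub, coeff_C_mul, coeff_X_pow, coeff_one, coeff_X]
    rw [if_neg (by omega), if_neg (by omega), if_neg (by omega)]
    simp

theorem hStar_two_one : Aex.hStar 2 1 = 0 := by
  have h2 : (2 : PowerSeries ℝ) = C (2 : ℝ) := (map_ofNat (C : ℝ →+* PowerSeries ℝ) 2).symm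
  rw [InvariantPolytope.hStar, hStarSeries_one, h2]
  simp only [map_add, coeff_C_mul, coeff_X_pow, coeff_one, coeff_X]
  norm_num

theorem hStar_two_neg : Aex.hStar 2 (-1) = 2 := by
  have h2 : (2 : PowerSeries ℝ) = C (2 : ℝ) := (map_ofNat (C : ℝ →+* PowerSeries ℝ) 2).symm
  rw [InvariantPolytope.hStar, hStarSeries_neg, h2]
  simp only [map_add, map_sub, coeff_C_mul, coeff_X_pow, coeff_one, coeff_X]
  norm_num

theorem not_isEffective : ¬ Aex.IsEffective := by
  intro h
  obtain ⟨V, _, _, _, r, hr⟩ := h 2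
  have h1 := hr 1
  have h2 := hr (-1)
  rw [hStar_two_one, map_one, LinearMap.trace_one] at h1
  rw [hStar_two_neg] at h2
  have h0 : Module.finrank ℂ V = 0 := by
    have : ((Module.finrank ℂ V : ℕ) : ℂ) = 0 := by
      rw [h1]
      simp
    exact_mod_cast this
  have hsub : Subsingleton V := Module.finrank_zero_iff.mp h0
  have h3 : r (-1) = 0 := by
    ext v
    exact Subsingleton.elim _ _
  rw [h3, map_zero] at h2
  norm_num at h2

end Run7.h611.Ehr
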